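import Pool.Agent.R606.HS.Main

/-!
# A Hajnal-Szemeredi theorem with prescribed class sizes

Every finite graph `G` on `N` vertices with maximum degree `Δ` has, for every vector
`n = (n_1, …, n_q)` of nonnegative integers with sum `N` and all entries at most
`⌊N / (Δ + 1)⌋`, a proper colouring with exactly `n_i` vertices of colour `i`, for all `i`.

Idea of the proof.  The argument of Kierstead and Kostochka for equitable colourings is carried
out with prescribed class sizes.  One proves, by induction on the number of edges, that degrees at
most `r`, at least `(r + 1) s` vertices and `n_i ≤ s` suffice: these hypotheses are inherited by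
the graph induced on the inaccessible classes (with fewer, possibly more than the expected number
of, classes), and all the counting inequalities only use upper bounds for the sizes of the
accessible classes and a lower bound for the number of vertices in the inaccessible ones.
-/

set_option autoImplicit false

namespace Pool.Agent.Results.MP_2870db_co.PrescribedClassSizes

universe u

/-- For every finite graph `G` with vertex type `V`, every `q` and every vector `n` of `q`
nonnegative integers that add up to the number of vertices and are all at most
`⌊|V| / (Δ(G) + 1)⌋`, there is a proper colouring `σ` of `G` with the `q` colours `Fin q` in which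
exactly `n i` vertices have the colour `i`, for every `i`. -/
theorem result (V : Type u) [Fintype V] (G : SimpleGraph V) [DecidableRel G.Adj]
    (q : ℕ) (n : Fin q → ℕ) (hsum : ∑ i, n i = Fintype.card V)
    (hn : ∀ i, n i ≤ Fintype.card V / (G.maxDegree + 1)) :
    ∃ σ : G.Coloring (Fin q), ∀ i, (Finset.univ.filter (fun v => σ v = i)).card = n i := by
  classical
  obtain ⟨c, hc, hsz⟩ := Pool.Agent.R606.HS.main G G.maxDegree
    (Fintype.card V / (G.maxDegree + 1))
    (fun v => by
      have h := G.degree_le_maxDegree v
      rw [← G.card_neighborFinset_eq_degree v] at h
      refine le_trans (le_of_eq ?_) h
      congr 1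
      ext w
      simp)
    (Nat.mul_div_le _ _) n hn hsum
  refine ⟨SimpleGraph.Coloring.mk c (fun {v w} h => hc v w h), fun i => ?_⟩
  rw [← hsz i]
  congr 1
  ext v
  simp only [Finset.mem_filter, Finset.mem_univ, true_and]
  exact Iff.rfl

end Pool.Agent.Results.MP_2870db_co.PrescribedClassSizes
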